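import Pool.Agent.Lib.MP_0bc52e_nt.T.All
import Pool.Agent.Lib.MP_0bc52e_nt.T7.P.cert
import Pool.Agent.Lib.MP_0bc52e_nt.T7.P.WLm
import Pool.Agent.Lib.MP_0bc52e_nt.T7.P.plane1
import Pool.Agent.Lib.MP_0bc52e_nt.T7.P.WW
import Pool.Agent.Lib.MP_0bc52e_nt.T7.P.SGb
import Pool.Agent.Lib.MP_0bc52e_nt.T7.P.SG3
import Pool.Agent.Lib.MP_0bc52e_nt.T7.P.SG
import Pool.Agent.Lib.MP_0bc52e_nt.T7.P.ZFZ
import Pool.Agent.Lib.MP_0bc52e_nt.T7.P.ZFW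
import Pool.Agent.Lib.MP_0bc52e_nt.T7.P.EXZ
import Pool.Agent.Lib.MP_0bc52e_nt.T7.P.EXW
import Pool.Agent.Lib.MP_0bc52e_nt.T7.P.ZL
import Pool.Agent.Lib.MP_0bc52e_nt.T7.P.L4B
import Pool.Agent.Lib.MP_0bc52e_nt.T7.P.L4A
import Pool.Agent.Lib.MP_0bc52e_nt.T7.P.Gd
import Pool.Agent.Lib.MP_0bc52e_nt.T7.P.PL
import Pool.Agent.Lib.MP_0bc52e_nt.T7.P.I0
import Pool.Agent.Lib.MP_0bc52e_nt.T7.P.I
import Pool.Agent.Lib.MP_0bc52e_nt.T7.P.hit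
import Pool.Agent.Lib.MP_0bc52e_nt.T7.P.cas
import Pool.Agent.Lib.MP_0bc52e_nt.T7.P.cross
import Pool.Agent.Lib.MP_0bc52e_nt.T7.P.negZ
import Pool.Agent.Lib.MP_0bc52e_nt.T7.P.WID

/-!
# Assembly: hollow polytopes for all primes `p ≥ 7` (MP_0bc52e_nt)

`qH_TH`: a hollow integer polytope that meets all classes modulo `2` and satisfies the criterion for a prime `p ≥ 7` is
in the family `P(C; s, t)` with `p ∣ C`.
-/

namespace Pool.Agent.Lib.MP_0bc52e_nt.LC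

lemma qH_cert : SH_cert := pH_cert qI_fra qI_seg1 qI_frsym
lemma qH_WLm : SH_WLm := pH_WLm qH_cert qI_WL1 qI_WL2
lemma qH_plane1 : SH_plane1 := pH_plane1 q_SW qI_Wfull q_umconv
lemma qH_WW : SH_WW := pH_WW qI_WW4 qH_plane1
lemma qH_SGb : SH_SGb := pH_SGb
lemma qH_SG3 : SH_SG3 := pH_SG3 qH_SGb
lemma qH_SG : SH_SG := pH_SG qI_VC qH_SGb qH_SG3
lemma qH_ZFZ : SH_ZFZ := pH_ZFZ qH_SG qI_IN1 qI_IN2 qI_ZA
lemma qH_ZFW : SH_ZFW := pH_ZFW qH_SG qI_IN1 qI_IN2 qI_ZAW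
lemma qH_EXZ : SH_EXZ := pH_EXZ
lemma qH_EXW : SH_EXW := pH_EXW
lemma qH_ZL : SH_ZL := pH_ZL qI_pcmin qI_NFZ qI_NFW qI_S4sq qI_ZN qI_Q qI_ZW qH_ZFZ qH_ZFW qH_EXZ qH_EXW qI_avdmap
  qI_avdres qI_upc qI_umim
lemma qH_4B : SH_4B := pH_4B qI_Q qI_VC
lemma qH_4A : SH_4A := pH_4A q_row q_row2 q_um qI_WL1 qI_avdmap qI_umim
lemma qH_Gd : SH_Gd := pH_Gd qH_4A qH_4B
lemma qH_PL : SH_PL := pH_PL q_SW q_um qH_ZL qH_WLm qH_WW qI_pcmin qH_Gd qI_avdmap qI_avdres qI_upc qI_umim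
lemma qH_I0 : SH_I0 := pH_I0 qI_slc qI_cavd qI_avdres qH_PL qI_lvm qI_toT qI_u3a qI_u3b qI_u3c qI_N7s q_edge
lemma qH_I : SH_I := pH_I q_N5 qH_I0 qI_flm qI_u3a qI_u3b qI_u3c qI_slc
lemma qH_hit : SH_hit := pH_hit
lemma qH_cas : SH_cas := pH_cas
lemma qH_cross : SH_cross := pH_cross
lemma qH_cross3 : SH_cross3 := pH_cross3
lemma qH_negZ : SH_negZ := pH_negZ qI_int qI_cone qH_cross qH_cross3
lemma qH_WID : SH_WID := pH_WID qH_I qI_u3a qI_u3b qI_u3c qI_u3d qI_u3e qI_cres qI_R2 qH_cas qH_hit qH_negZ qI_negW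
  q_zeq q_pair

end Pool.Agent.Lib.MP_0bc52e_nt.LC

namespace Pool.Agent.Lib.MP_0bc52e_nt.T

open Pool.Agent.Lib.MP_0bc52e_nt.LC

lemma qH_wid : SH_wid := by
  intro P p hP hp h13 hC hH V₀ hV hpc
  have hH' : LC.Hollow P := by
    intro x y z hz
    apply hH (x, y, z)
    intro d
    have h1 : Filter.Tendsto (fun ε : ℝ => ip (x, y, z) + ε • d) (nhds 0)
        (nhds (ip (x, y, z))) := by
      have h2 : Continuous (fun ε : ℝ => ip (x, y, z) + ε • d) := by fun_prop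
      have h3 := h2.tendsto 0
      simpa using h3
    have h4 : ∀ᶠ ε in nhds (0 : ℝ), ip (x, y, z) + ε • d ∈ P :=
      h1.eventually (mem_interior_iff_mem_nhds.1 hz)
    obtain ⟨δ, hδ, h5⟩ := Metric.eventually_nhds_iff.1 h4
    refine ⟨δ / 2, by positivity, h5 ?_⟩
    rw [Real.dist_eq, sub_zero, abs_of_pos (by positivity)]
    linarith
  obtain ⟨C, s, t, h1, h2, _, h4⟩ := qH_WID P p V₀ hp h13 hP hC hH' (fun v hv => (hV v hv).1) hpc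
    (fun v hv => (hV v hv).2)
  exact ⟨C, s, t, h1, h2, h4⟩

private theorem qH_TH_swap (C s t : ℤ) : fam C s t = fam C t s := by
  unfold fam
  congr 1
  ext v
  simp only [Set.mem_insert_iff, Set.mem_singleton_iff]
  tauto

/-- A hollow integer polytope that meets all classes modulo `2` and satisfies the criterion for a prime `p ≥ 7` is in
the family. -/
theorem qH_TH : SH_TH := by
  intro P p hP hpc hH hp h7 hC
  obtain ⟨f, hf, V₀, hV, hV2⟩ := q_H P p hP hpc hH (by omega) hC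
  obtain ⟨f1, f2, f3, f4, f5, f6, f7⟩ := q_fr2 f hf P
  obtain ⟨C, s, t, h1, h2, h3⟩ := qH_wid (f ⁻¹' P) p (f2 hP) hp h7 (f4 p hC) (f6 hH) V₀ hV hV2
  rcases le_total s t with h | h
  · exact ⟨C, s, t, h1, h2, h, f7 _ h3⟩
  · refine ⟨C, t, s, h1, h2, h, ?_⟩
    rw [← qH_TH_swap]
    exact f7 _ h3

end Pool.Agent.Lib.MP_0bc52e_nt.T
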