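import Pool.Agent.Lib.MP_0bc52e_nt.T.StmI3
import Pool.Agent.Lib.MP_0bc52e_nt.T.StmH

/-!
# Hollow polytopes for all primes `p ≥ 7` (MP_0bc52e_nt)

The statements of `T/StmI1`, `T/StmI2`, `T/StmI3` (polytopes of width one) and `S_wid`, `S_TH` of `T/StmH` that were
stated for `p ≥ 13`, with the bound `7 ≤ p`. The proofs are the old ones, with three additions: equal multiplicities
`m = n = 3` in `[SG]` (finite check), `(p; m, n) = (7; 4, 2), (11; 7, 3)` in `[WLm]` (finite check), and the middle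
section with `|C| = 7` in `[negZ]`.
-/

namespace Pool.Agent.Lib.MP_0bc52e_nt.LC

/-! ## Triangles -/

/-- `(p; m, n) = (7; 4, 2)` or `(11; 7, 3)`. Proof. Let `b₀ ∈ B` be an integer point, `τ = (y, z) - n b₀`. By `[fra]` and `[seg1]` the integer points
`b = b₀ + (u, v)` of `B` satisfy `|u|, |v|, |u - v| ≤ 5`, and `τ - s n (u, v)` is free for `0 ≤ s ≤ 1`. Finite check: for every `τ` modulo `p` either `τ` is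
not free, or there is a class `c ≠ 0` modulo `2` such that for all `(u, v) ≡ c` in this range one of the points `s = i/12` is not free. -/
def SH_cert : Prop := ∀ (A B : Set (ℝ × ℝ)) (p m n : ℕ) (y z : ℤ), Convex ℝ A → Convex ℝ B → W3 A → PC2 B →
  ((p = 7 ∧ m = 4 ∧ n = 2) ∨ (p = 11 ∧ m = 7 ∧ n = 3)) → Avd A B p m n y z → False

def SH_WLm : Prop := ∀ (A B : Set (ℝ × ℝ)) (p m n : ℕ) (y z : ℤ), Convex ℝ A → Convex ℝ B → W3 A → PC2 B → p.Prime → 7 ≤ p → 1 ≤ n → n < m → m + n + 1 = p →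
  Avd A B p m n y z → False

/-- The plane fact with the dilate `p - 1` only. Proof: as `[plane2]` with `[Wfull]` for `[Wr]`. -/
def SH_plane1 : Prop := ∀ (F : Set (ℝ × ℝ)) (p : ℕ) (b c : ℤ), Convex ℝ F → PC2 F → p.Prime → 5 ≤ p →
  (∀ y z : ℤ, ∀ v w : ℝ, (v, w) ∈ F → (y : ℝ) = (p - 1 : ℕ) * v → (z : ℝ) = (p - 1 : ℕ) * w →
    (p : ℤ) ∣ y - (p - 1 : ℕ) * b → (p : ℤ) ∣ z - (p - 1 : ℕ) * c → False) → False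

def SH_WW : Prop := ∀ (A B : Set (ℝ × ℝ)) (p n : ℕ) (y z x₀ y₀ a b c d : ℤ), Convex ℝ A → Convex ℝ B → W3 A → Wt B x₀ y₀ a b c d → a * d - b * c = 1 →
  p.Prime → 7 ≤ p → 2 * n + 1 = p → Avd A B p n n y z → False

/-! ## Squares -/

/-- Equal multiplicities: a steep free segment is short. Proof: as `[SGd]`, the last lines: `1 > (k_b - k_a) p κ`. -/
def SH_SGb : Prop := ∀ (n : ℕ) (c d G F : ℤ) (x₀ y₀ : ℝ), 3 ≤ n → F < G → (n : ℤ) * G < (n + 1) * F →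
  (∀ s : ℝ, 0 ≤ s → s ≤ 1 → Vf (2 * n + 1) n c (x₀ + s * G) ∨ Vf (2 * n + 1) n d (y₀ + s * F)) → (n + 2 : ℤ) ≤ G ∧ (n - 1 : ℤ) * G < 5 * n + 3

/-- `n = 3`. Proof: by `[SGb]` `5 ≤ G ≤ 8`, so `G = F + 1`; finite check modulo `7`. -/
def SH_SG3 : Prop := ∀ (c d x₀ y₀ G F : ℤ), F < G → 3 * G < 4 * F →
  (∀ s : ℝ, 0 ≤ s → s ≤ 1 → Vf 7 3 c (x₀ + s * G) ∨ Vf 7 3 d (y₀ + s * F)) → False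

def SH_SG : Prop := ∀ (p m n : ℕ) (c d x₀ y₀ G F : ℤ), m + n + 1 = p → 1 ≤ n → n ≤ m → (m = n → n = 3 ∨ 5 ≤ n) → 2 ≤ F → F < G →
  (∀ s : ℝ, 0 ≤ s → s ≤ 1 → Vf p n c (x₀ + s * G) ∨ Vf p n d (y₀ + s * F)) →
  F = 2 ∧ ∃ k l k' : ℤ, (k * p + 1 ≤ n * x₀ - c ∧ n * x₀ - c ≤ k * p + n) ∧ (l * p + 1 ≤ n * (y₀ + 1) - d ∧ n * (y₀ + 1) - d ≤ l * p + n) ∧
    (k' * p + 1 ≤ n * (x₀ + G) - c ∧ n * (x₀ + G) - c ≤ k' * p + n)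

def SH_ZFZ : Prop := ∀ (B : Set (ℝ × ℝ)) (p m n : ℕ) (c d x₁ y₁ a₁ b₁ c₁ d₁ : ℤ), Convex ℝ B → Qc p n c d B → m + n + 1 = p → 1 ≤ n → n ≤ m → (m = n → n = 3 ∨ 5 ≤ n) →
  Nf a₁ b₁ c₁ d₁ → 2 ≤ b₁ + d₁ → Zt B x₁ y₁ a₁ b₁ c₁ d₁ →
  ∃ q k l k' : ℤ, 1 ≤ q ∧ Zt B x₁ y₁ (q + 1) 1 q 1 ∧ (k * p + 1 ≤ n * x₁ - c ∧ n * x₁ - c ≤ k * p + n) ∧
    (l * p + 1 ≤ n * (y₁ + 1) - d ∧ n * (y₁ + 1) - d ≤ l * p + n) ∧ (k' * p + 1 ≤ n * (x₁ + (2 * q + 1)) - c ∧ n * (x₁ + (2 * q + 1)) - c ≤ k' * p + n) ∧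
    (n = 1 ∨ (m = n ∧ q = 1 ∧ n * x₁ - c - k * p = 1 ∧ n * (x₁ + (2 * q + 1)) - c - k' * p = n ∧ 2 * (n * (y₁ + 1) - d - l * p) = n + 1))

def SH_ZFW : Prop := ∀ (B : Set (ℝ × ℝ)) (p m n : ℕ) (c d x₁ y₁ a₁ b₁ c₁ d₁ : ℤ), Convex ℝ B → Qc p n c d B → m + n + 1 = p → 1 ≤ n → (m = n ∨ n + 2 ≤ m) → (m = n → n = 3 ∨ 5 ≤ n) →
  Nf a₁ b₁ c₁ d₁ → Wt B x₁ y₁ a₁ b₁ c₁ d₁ →
  ∃ q k l k' : ℤ, 1 ≤ q ∧ Wt B x₁ y₁ 1 0 q 1 ∧ (k * p + 1 ≤ n * (x₁ - 1 - q) - c ∧ n * (x₁ - 1 - q) - c ≤ k * p + n) ∧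
    (l * p + 1 ≤ n * y₁ - d ∧ n * y₁ - d ≤ l * p + n) ∧ (k' * p + 1 ≤ n * (x₁ + q) - c ∧ n * (x₁ + q) - c ≤ k' * p + n) ∧
    (n = 1 ∨ (m = n ∧ q = 1 ∧ n * (x₁ - 1 - q) - c - k * p = 1 ∧ n * (x₁ + q) - c - k' * p = n ∧
      (3 * (n * y₁ - d - l * p) = 2 * n + 1 ∨ 3 * (n * y₁ - d - l * p) = 2 * n + 2)))

def SH_EXZ : Prop := ∀ (A B : Set (ℝ × ℝ)) (p n : ℕ) (y z x₁ y₁ k l : ℤ), Convex ℝ A → S4 A → Zt B x₁ y₁ 2 1 1 1 → 2 * n + 1 = p → 3 ≤ n →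
  n * x₁ - y - k * p = 1 → 2 * (n * (y₁ + 1) - z - l * p) = n + 1 → Avd A B p (n - 1) (n - 1) (3 * y) (3 * z) → False

def SH_EXW : Prop := ∀ (A B : Set (ℝ × ℝ)) (p n : ℕ) (y z x₁ y₁ k l : ℤ), Convex ℝ A → Convex ℝ B → S4 A → Wt B x₁ y₁ 1 0 1 1 → 2 * n + 1 = p → 3 ≤ n →
  n * (x₁ - 2) - y - k * p = 1 → (3 * (n * y₁ - z - l * p) = 2 * n + 1 ∨ 3 * (n * y₁ - z - l * p) = 2 * n + 2) → Avd A B p (n - 1) (n - 1) (3 * y) (3 * z) → False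

def SH_ZL : Prop := ∀ (A B : Set (ℝ × ℝ)) (p m n : ℕ) (y z : ℤ), Convex ℝ A → Convex ℝ B → S4 A → PC2 B → p.Prime → 7 ≤ p → 1 ≤ n → n ≤ m → m + n + 1 = p →
  Avd A B p m n y z → (m = n → Avd A B p (n - 1) (n - 1) (3 * y) (3 * z)) → n = 1 ∧ Up (Core p) A B m n y z

def SH_4B : Prop := ∀ (A B : Set (ℝ × ℝ)) (p : ℕ) (y z : ℤ), Convex ℝ A → Convex ℝ B → 7 ≤ p → Core p A B y z → Avd A B p (p - 2) 1 y z →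
  ∀ v ∈ B, -2 < v.2 ∧ v.2 < 2

def SH_4A : Prop := ∀ (A B : Set (ℝ × ℝ)) (p : ℕ) (y z : ℤ), Convex ℝ A → Convex ℝ B → IsLP2 A → PC2 B → p.Prime → 7 ≤ p → Core p A B y z → Avd A B p (p - 2) 1 y z →
  ∀ v ∈ A, 0 ≤ v.2 ∧ v.2 ≤ 1

def SH_Gd : Prop := ∀ (A B : Set (ℝ × ℝ)) (p : ℕ) (y z : ℤ), Convex ℝ A → Convex ℝ B → IsLP2 A → IsLP2 B → PC2 B → p.Prime → 7 ≤ p → Core p A B y z → Avd A B p (p - 2) 1 y z →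
  Good p A B y z

def SH_PL : Prop := ∀ (A B : Set (ℝ × ℝ)) (p m n : ℕ) (y z : ℤ), Convex ℝ A → Convex ℝ B → IsLP2 A → IsLP2 B → PC2 A → PC2 B → p.Prime → 7 ≤ p → 1 ≤ n → n ≤ m →
  m + n + 1 = p → Avd A B p m n y z → (m = n → Avd A B p (n - 1) (n - 1) (3 * y) (3 * z)) → n = 1 ∧ Up (Good p) A B m n y z

/-! ## Space -/

def SH_I0 : Prop := ∀ (P : Set (ℝ × ℝ × ℝ)) (p m n : ℕ) (a b c : ℤ), IsLP3 P → PC3 P → (∀ v ∈ P, 0 ≤ v.1 ∧ v.1 ≤ 1) → p.Prime → 7 ≤ p → Crit3 P p a b c →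
  1 ≤ n → n ≤ m → m + n + 1 = p → (p : ℤ) ∣ (n : ℤ) - (p - 1) * a →
  ∃ g : ℝ × ℝ × ℝ → ℝ × ℝ × ℝ, IsU3 g ∧ (∃ C s t : ℤ, Odd C ∧ (p : ℤ) ∣ C ∧ s ≤ t ∧ g '' P = fam C s t) ∧
    ∃ a' b' c' : ℤ, g (ip (a, b, c)) = ip (a', b', c') ∧ (p : ℤ) ∣ a' - 2 ∧ (p : ℤ) ∣ b' ∧ (p : ℤ) ∣ c' - 1

def SH_I : Prop := ∀ (P : Set (ℝ × ℝ × ℝ)) (p : ℕ) (a b c : ℤ), IsLP3 P → PC3 P → (∀ v ∈ P, 0 ≤ v.1 ∧ v.1 ≤ 1) → p.Prime → 7 ≤ p → Crit3 P p a b c →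
  ∃ g : ℝ × ℝ × ℝ → ℝ × ℝ × ℝ, IsU3 g ∧ (∃ C s t : ℤ, Odd C ∧ (p : ℤ) ∣ C ∧ s ≤ t ∧ g '' P = fam C s t) ∧
    ∃ a' b' c' : ℤ, g (ip (a, b, c)) = ip (a', b', c') ∧ (p : ℤ) ∣ a' - 2 ∧ (p : ℤ) ∣ b' ∧ (p : ℤ) ∣ c' - 1

def SH_hit : Prop := ∀ (P : Set (ℝ × ℝ × ℝ)) (p : ℕ) (a b c C y z Y Z : ℤ) (α η s₁ s₂ : ℝ), Convex ℝ P → Crit3 P p a b c → 7 ≤ p → (p : ℤ) ∣ a - 2 → (p : ℤ) ∣ b → (p : ℤ) ∣ c - 1 →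
  Six P C → ip (2, y, z) ∈ P → 0 ≤ α → 0 ≤ η → η ≤ 2 + 2 * α → 0 ≤ s₁ → 0 ≤ s₂ → s₁ ≤ p - 2 - 2 * α → s₂ ≤ p - 2 - 2 * α →
  α * y + η + s₁ = Y → α * z + C / 2 * η + s₂ = Z → (p : ℤ) ∣ Y → (p : ℤ) ∣ Z + 1 → False

/-- As `[cas]`, with `|C| ≥ 7`. -/
def SH_cas : Prop := ∀ (p : ℕ) (C y z : ℤ), 7 ≤ p → C ≠ 0 → (p : ℤ) ∣ C → ∃ (α η s₁ s₂ : ℝ) (Y Z : ℤ), 0 ≤ α ∧ 0 ≤ η ∧ η ≤ 2 + 2 * α ∧ 0 ≤ s₁ ∧ 0 ≤ s₂ ∧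
  s₁ ≤ p - 2 - 2 * α ∧ s₂ ≤ p - 2 - 2 * α ∧ α * y + η + s₁ = Y ∧ α * z + C / 2 * η + s₂ = Z ∧ (p : ℤ) ∣ Y ∧ (p : ℤ) ∣ Z + 1

/-- As `[cross]`; the segment enters a cone if `1/s + 1/(s+1) < lam`. Proof for `s > 0`: if it does not, it begins in the vertical strip `μ ∈ [0,1]` and ends in the horizontal strip `ν ∈ [0,1]`,
or begins in the horizontal strip and ends in the vertical strip (both extents are `> 1`); the time in the vertical strip is at most `1/Δ`, in the horizontal strip at most `1/Δ'`, `Δ = lam (s+1)`, `Δ' = lam s`. -/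
def SH_cross : Prop := ∀ μ ν lam s : ℝ, lam ≤ 1 → ((1 ≤ s ∧ 2 * s + 1 < lam * (s * (s + 1))) ∨ (s ≤ -2 ∧ - 2 * s - 1 < lam * (s * (s + 1)))) → ∃ t : ℝ, 0 ≤ t ∧ t ≤ 1 ∧
  ((1 < μ + t * (lam * (s + 1)) ∧ 1 < ν - t * (lam * s)) ∨ (1 < μ + t * (lam * (s + 1)) ∧ ν - t * (lam * s) < 0) ∨
    (μ + t * (lam * (s + 1)) < 0 ∧ 1 < ν - t * (lam * s)) ∨ (μ + t * (lam * (s + 1)) < 0 ∧ ν - t * (lam * s) < 0))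

/-- The case `s = 3` or `s = -4`, `lam = 1/2`: one of two parallel segments enters a cone. Here `w = 1` adds `(0, 1/2)` to `(Y, Z)`, that is `(-1/2, 1/2)` to `(μ, ν)`. Proof: `[cross]` fails for `s = 3` only if the segment begins in the vertical strip, `μ ∈ [0, 1]`, `ν - 3/2 ∈ [0,1]`,
`ν - (3/4)(1 - μ) ≤ 1`, or begins in the horizontal strip, `ν ∈ [0,1]`, `μ + 2 ∈ [0,1]`, `ν + 3μ/4 ≥ 0`. First case for both: `μ ≥ 1/2` and `ν + 1/2 - (3/4)(3/2 - μ) ≤ 1`, so `ν ≤ 5/4`; second case: `ν ≥ 3/4` and `ν + 1/2 ≤ 1`; mixed cases are impossible. -/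
def SH_cross3 : Prop := ∀ μ ν s : ℝ, (s = 3 ∨ s = -4) → ∃ t w : ℝ, 0 ≤ t ∧ t ≤ 1 ∧ (w = 0 ∨ w = 1) ∧
  ((1 < μ - w / 2 + t * ((s + 1) / 2) ∧ 1 < ν + w / 2 - t * (s / 2)) ∨ (1 < μ - w / 2 + t * ((s + 1) / 2) ∧ ν + w / 2 - t * (s / 2) < 0) ∨
    (μ - w / 2 + t * ((s + 1) / 2) < 0 ∧ 1 < ν + w / 2 - t * (s / 2)) ∨ (μ - w / 2 + t * ((s + 1) / 2) < 0 ∧ ν + w / 2 - t * (s / 2) < 0))

/-- As `[negZ]`. If `s₀ ≥ 4` or `s₀ ≤ -5`, or `x ≤ -2`, `[cross]` applies (`lam ≥ 1/2`, resp. `lam ≥ 2/3`); if `x = -1` and `s₀ ∈ {3, -4}`, `[cross3]`, with the points `(1, t, w)`, `w ∈ {0, 1}`. -/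
def SH_negZ : Prop := ∀ (P : Set (ℝ × ℝ × ℝ)) (s₀ x y z : ℤ), Convex ℝ P → Six P (2 * s₀ + 1) → (3 ≤ s₀ ∨ s₀ ≤ -4) → ip (0, 1, s₀) ∈ P → ip (0, 1, s₀ + 1) ∈ P →
  x ≤ -1 → ip (x, y, z) ∈ P → ¬ Hollow P

def SH_WID : Prop := ∀ (P : Set (ℝ × ℝ × ℝ)) (p : ℕ) (V₀ : Finset (ℤ × ℤ × ℤ)), p.Prime → 7 ≤ p → IsLP3 P → (∃ a b c : ℤ, Crit3 P p a b c) → Hollow P →
  (∀ v ∈ V₀, ip v ∈ P) → PC3 (convexHull ℝ (ip '' (V₀ : Set (ℤ × ℤ × ℤ)))) → (∀ v ∈ V₀, v.1 = 0 ∨ v.1 = 1) →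
  ∃ C s t : ℤ, Odd C ∧ (p : ℤ) ∣ C ∧ s ≤ t ∧ ZEq P (fam C s t)

end Pool.Agent.Lib.MP_0bc52e_nt.LC

namespace Pool.Agent.Lib.MP_0bc52e_nt.T

open Pool.Agent.Lib.MP_0bc52e_nt.LC

def SH_wid : Prop := ∀ (P : Set (ℝ × ℝ × ℝ)) (p : ℕ), IsLP3 P → p.Prime → 7 ≤ p → Cr P p → Hollow P →
  ∀ V₀ : Finset (ℤ × ℤ × ℤ), (∀ v ∈ V₀, ip v ∈ P ∧ (v.1 = 0 ∨ v.1 = 1)) → PC3 (hull V₀) →
  ∃ C s t : ℤ, Odd C ∧ (p : ℤ) ∣ C ∧ ZEq P (fam C s t)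

/-- A hollow polytope that meets all classes modulo `2` and satisfies the criterion for a prime `p ≥ 7` is in the family. -/
def SH_TH : Prop := ∀ (P : Set (ℝ × ℝ × ℝ)) (p : ℕ), IsLP3 P → PC3 P → Hollow P → p.Prime → 7 ≤ p → Cr P p →
  ∃ C s t : ℤ, Odd C ∧ (p : ℤ) ∣ C ∧ s ≤ t ∧ ZEq P (fam C s t)

end Pool.Agent.Lib.MP_0bc52e_nt.T
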